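import Pool.Agent.R905.Kf

/-!
# Kimura finite-dimensionality descends along tensor products
-/

set_option autoImplicit false
set_option linter.unusedSectionVars false
set_option linter.unusedSimpArgs false
set_option backward.isDefEq.respectTransparency false
set_option backward.defeqAttrib.useBackward true

open CategoryTheory Limits MonoidalCategory
open Pool.Agent.Y112.SR Pool.Agent.Y112.KD Pool.Agent.Y112.SC
open Pool.Agent.TH829.Kim (InRad Killed isNilpotent_of_inRad exists_lift)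

namespace Pool.Agent.R905

universe v u w

open Functor.LaxMonoidal Functor.OplaxMonoidal

section

variable {C : Type u} [Category.{v} C] [Preadditive C] [Linear ℚ C] [MonoidalCategory C]
  [MonoidalPreadditive C] [MonoidalLinear ℚ C] [SymmetricCategory C]
  {K : Type w} [Field K] (R : SuperRealisation C K)

/-- An endomorphism as an element of the ring of endomorphisms. -/
def en {X : C} (f : X ⟶ X) : End X := f

/-- Endomorphisms with trivial realisation are nilpotent. -/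
def HomNil (M : C) : Prop := ∀ f : End M, R.H.map (f : M ⟶ M) = 0 → IsNilpotent f

variable {R}

lemma HomNil.retract {M P : C} (h : HomNil R M) (j : P ⟶ M) (q : M ⟶ P) (hjq : j ≫ q = 𝟙 P) :
    HomNil R P := by
  intro f hf
  obtain ⟨n, hn⟩ := h (en (q ≫ (f : P ⟶ P) ≫ j))
    (by rw [en, Functor.map_comp, Functor.map_comp, hf]; simp)
  have key : ∀ n : ℕ, (en (q ≫ (f : P ⟶ P) ≫ j)) ^ (n + 1) =
      en (q ≫ ((f ^ (n + 1) : End P) : P ⟶ P) ≫ j) := by
    intro n
    induction n with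
    | zero => rw [zero_add, pow_one, pow_one]
    | succ n ih =>
      rw [pow_succ, ih, pow_succ f (n + 1), End.mul_def, End.mul_def]
      simp only [en, Category.assoc]
      rw [reassoc_of% hjq]
  refine ⟨n + 1, ?_⟩
  have h1 := key n
  rw [pow_succ, hn, zero_mul] at h1
  have h2 : j ≫ (q ≫ ((f ^ (n + 1) : End P) : P ⟶ P) ≫ j) ≫ q = j ≫ (0 : M ⟶ M) ≫ q :=
    congrArg (fun z : M ⟶ M => j ≫ z ≫ q) h1.symm
  simp only [Category.assoc, reassoc_of% hjq, hjq, Category.comp_id, zero_comp, comp_zero] at h2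
  exact h2

/-- A summand with invertible comparison. -/
lemma HomNil.isUnit {P : C} (h : HomNil R P) (u : P ⟶ P) (hu : R.H.map u = 𝟙 _) :
    ∃ u' : P ⟶ P, u ≫ u' = 𝟙 P := by
  have h1 : IsNilpotent (en u - 1) := h _ (by
    change R.H.map (u - 𝟙 P) = 0
    rw [Functor.map_sub, hu, CategoryTheory.Functor.map_id, sub_self])
  have h2 := h1.isUnit_add_one
  have h3 : (en u - 1) + 1 = en u := sub_add_cancel (en u) 1
  rw [h3] at h2
  obtain ⟨U, hU⟩ := h2
  refine ⟨((U⁻¹ : (End P)ˣ) : End P), ?_⟩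
  have h4 := U.inv_mul
  rw [hU, End.mul_def] at h4
  exact h4

lemma HomNil.id_eq_zero {P : C} (h : HomNil R P) (hP : IsZero (R.H.obj P)) : 𝟙 P = 0 := by
  obtain ⟨n, hn⟩ := h 1 (hP.eq_of_src _ _)
  rw [one_pow] at hn
  exact hn

end

section

variable {C : Type u} [Category.{v} C] [Preadditive C] [Linear ℚ C] [MonoidalCategory C]
  [MonoidalPreadditive C] [MonoidalLinear ℚ C] [SymmetricCategory C] [IsIdempotentComplete C]

/-- Kimura finiteness in terms of objects. -/
lemma isKimuraFinite_iff (M : C) : IsKimuraFinite M ↔ ∃ (E O : C) (i : E ⟶ M) (r : M ⟶ E)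
    (i' : O ⟶ M) (r' : M ⟶ O), i ≫ r = 𝟙 E ∧ i' ≫ r' = 𝟙 O ∧ r ≫ i + r' ≫ i' = 𝟙 M ∧
    (∃ n, asym (-1) E n = 0) ∧ ∃ n, asym 1 O n = 0 := by
  constructor
  · rintro ⟨e, he, ⟨n, hn⟩, m, hm⟩
    have he' : (𝟙 M - e) ≫ (𝟙 M - e) = 𝟙 M - e := by
      rw [Preadditive.sub_comp, Preadditive.comp_sub, Preadditive.comp_sub, he]
      simp
    obtain ⟨E, i, r, h1, h2⟩ := IsIdempotentComplete.idempotents_split M e he
    obtain ⟨O, i', r', h3, h4⟩ := IsIdempotentComplete.idempotents_split M (𝟙 M - e) he'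
    refine ⟨E, O, i, r, i', r', h1, h3, by rw [h2, h4]; abel, ⟨n, ?_⟩, m, ?_⟩
    · exact (powerVanishes_iff (by norm_num) i r h1 h2 n).1 hn
    · exact (powerVanishes_iff (by norm_num) i' r' h3 h4 m).1 hm
  · rintro ⟨E, O, i, r, i', r', h1, h3, h5, ⟨n, hn⟩, m, hm⟩
    have h6 : r' ≫ i' = 𝟙 M - r ≫ i := by rw [← h5]; abel
    refine ⟨r ≫ i, by rw [Category.assoc, reassoc_of% h1], ⟨n, ?_⟩, m, ?_⟩
    · exact (powerVanishes_iff (by norm_num) i r h1 rfl n).2 hn
    · rw [← h6]
      exact (powerVanishes_iff (by norm_num) i' r' h3 rfl m).2 hm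

end

section

variable {C : Type u} [Category.{v} C] [Preadditive C] [Linear ℚ C] [MonoidalCategory C]
  [MonoidalPreadditive C] [MonoidalLinear ℚ C] [SymmetricCategory C]
  [RightRigidCategory C] {K : Type w} [Field K] (R : SuperRealisation C K)

lemma trq_eq_zero (hU : UnitQ C) {M : C} (f : M ⟶ M) (hf : R.H.map f = 0) :
    trq hU M (f : End M) = 0 := by
  have hc := R_charZero R
  have h1 := real_tr R hU f
  rw [hf, zero_comp, ModuleCat.hom_zero, map_zero] at h1
  exact_mod_cast h1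

lemma inRad_of_map (hU : UnitQ C) {M : C} (f : End M) (hf : R.H.map (f : M ⟶ M) = 0) :
    InRad (trq hU M) f := by
  intro γ
  apply trq_eq_zero R hU
  rw [End.mul_def, Functor.map_comp, hf, comp_zero]

variable [IsIdempotentComplete C]

include R in
/-- Homologically trivial endomorphisms of Kimura finite objects are nilpotent. -/
lemma IsKimuraFinite.homNil (hU : UnitQ C) {M : C} (h : IsKimuraFinite M) : HomNil R M := by
  obtain ⟨E, O, i, r, i', r', h1, h3, h5, ⟨n, hn⟩, m, hm⟩ := (isKimuraFinite_iff M).1 h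
  intro f hf
  have hr := inRad_of_map R hU f hf
  have h6 : 1 - en (r ≫ i) = en (r' ≫ i') := by
    have h7 : (1 : End M) = en (r ≫ i) + en (r' ≫ i') := h5.symm
    rw [h7]
    exact add_sub_cancel_left _ _
  have hk1 := killed hU (η := (-1 : ℚ)) (by norm_num) i r n (asym_mono (by norm_num) E hn)
    (en (r ≫ i)) rfl
  have hk2 := killed hU (η := (1 : ℚ)) (by norm_num) i' r' m (asym_mono (by norm_num) O hm)
    (en (r' ≫ i')) rfl
  rw [← h6] at hk2
  refine isNilpotent_of_inRad (tr := trq hU M) ?_ ?_ hk1 hk2 hr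
  · intro a b
    rw [End.mul_def, End.mul_def]
    exact trq_comm' R hU _ _
  · rw [End.mul_def]
    change (r ≫ i) ≫ r ≫ i = r ≫ i
    rw [Category.assoc, reassoc_of% h1]

omit [RightRigidCategory C] in
/-- The even projector of a Kimura finite object. -/
lemma map_proj {M E O : C} (i : E ⟶ M) (r : M ⟶ E) (i' : O ⟶ M) (r' : M ⟶ O)
    {n m : ℕ} (hn : asym (-1) E n = 0) (hm : asym 1 O m = 0) :
    R.H.map (r ≫ i) ≫ R.par M = R.H.map (r ≫ i) ∧
      R.H.map (r' ≫ i') ≫ R.par M = -R.H.map (r' ≫ i') := by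
  have hc := R_charZero R
  have h6 := par_eq_of_asym R (η := (-1 : ℚ)) (by norm_num) hn
  have h7 := par_eq_of_asym R (η := (1 : ℚ)) (by norm_num) hm
  push_cast at h6 h7
  rw [neg_neg, one_smul] at h6
  constructor
  · rw [Functor.map_comp, Category.assoc, R.par_natural, h6, Category.id_comp]
  · rw [Functor.map_comp, Category.assoc, R.par_natural, h7]
    simp

omit [RightRigidCategory C] in
lemma IsKimuraFinite.cplus {M : C} (h : IsKimuraFinite M) : R.CPlus M := by
  obtain ⟨E, O, i, r, i', r', h1, h3, h5, ⟨n, hn⟩, m, hm⟩ := (isKimuraFinite_iff M).1 h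
  obtain ⟨h6, h7⟩ := map_proj R i r i' r' hn hm
  refine ⟨r ≫ i, ?_⟩
  have h8 : R.par M = R.H.map (r ≫ i) - R.H.map (r' ≫ i') := by
    calc R.par M = R.H.map (r ≫ i + r' ≫ i') ≫ R.par M := by rw [h5]; simp
      _ = _ := by rw [Functor.map_add, Preadditive.add_comp, h6, h7, sub_eq_add_neg]
  have h9 : 𝟙 (R.H.obj M) = R.H.map (r ≫ i) + R.H.map (r' ≫ i') := by
    rw [← Functor.map_add, h5, CategoryTheory.Functor.map_id]
  rw [h8, h9, two_smul]
  abel

include R in
/-- A direct summand of pure parity of a Kimura finite object has a vanishing power. -/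
lemma IsKimuraFinite.summand (hU : UnitQ C) {M : C} (h : IsKimuraFinite M) {P : C} (j : P ⟶ M)
    (q : M ⟶ P) (hjq : j ≫ q = 𝟙 P) {d : ℚ} (hd : d = 1 ∨ d = -1)
    (hP : R.par P = (d : K) • 𝟙 _) : ∃ n, asym (-d) P n = 0 := by
  have hc := R_charZero R
  have hnil := h.homNil R hU
  have hPnil := hnil.retract j q hjq
  obtain ⟨E, O, i, r, i', r', h1, h3, h5, ⟨n, hn⟩, m, hm⟩ := (isKimuraFinite_iff M).1 h
  obtain ⟨h6, h7⟩ := map_proj R i r i' r' hn hm
  have h9 : R.H.map (r ≫ i) + R.H.map (r' ≫ i') = 𝟙 (R.H.obj M) := by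
    rw [← Functor.map_add, h5, CategoryTheory.Functor.map_id]
  have hj : R.H.map j ≫ R.par M = (d : K) • R.H.map j := by
    rw [R.par_natural, hP]
    simp
  -- the composite with the other projector vanishes
  have h10 : (2 : K) ≠ 0 := two_ne_zero
  have hdd : (d : K) = 1 ∨ (d : K) = -1 := by
    rcases hd with rfl | rfl
    · exact Or.inl (by norm_num)
    · exact Or.inr (by norm_num)
  have hne : ∀ (a : M ⟶ M), R.H.map a ≫ R.par M = -((d : K) • R.H.map a) →
      R.H.map (j ≫ a) = 0 := by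
    intro a ha
    have e1 : R.H.map j ≫ R.H.map a ≫ R.par M = (d : K) • (R.H.map j ≫ R.H.map a) := by
      rw [R.par_natural, ← Category.assoc, hj, Linear.smul_comp]
    rw [ha, Preadditive.comp_neg, Linear.comp_smul] at e1
    have e2 : (2 * (d : K)) • (R.H.map j ≫ R.H.map a) = 0 := by
      rw [mul_smul, two_smul]
      nth_rewrite 1 [← e1]
      rw [neg_add_cancel]
    have e3 : 2 * (d : K) ≠ 0 := by
      rcases hdd with h | h <;> rw [h] <;> simp
    rw [Functor.map_comp]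
    exact (smul_eq_zero.1 e2).resolve_left e3
  rcases hd with rfl | rfl
  · -- even
    have e1 : R.H.map (j ≫ r' ≫ i') = 0 := hne _ (by rw [h7]; simp)
    have e2 : R.H.map (j ≫ (r ≫ i) ≫ q) = 𝟙 _ := by
      have e3 : j ≫ (r ≫ i) ≫ q = 𝟙 P - (j ≫ r' ≫ i') ≫ q := by
        have e4 : r ≫ i = 𝟙 M - r' ≫ i' := by rw [← h5]; abel
        rw [e4, Preadditive.sub_comp, Preadditive.comp_sub, Category.id_comp, hjq]
        simp
      rw [e3, Functor.map_sub, Functor.map_comp _ (j ≫ r' ≫ i') q, e1]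
      simp
    obtain ⟨u', hu'⟩ := hPnil.isUnit _ e2
    refine ⟨n, kills_retract (j ≫ r) (i ≫ q ≫ u') ?_ hn⟩
    rw [← hu']
    simp
  · have e1 : R.H.map (j ≫ r ≫ i) = 0 := hne _ (by rw [h6]; simp)
    have e2 : R.H.map (j ≫ (r' ≫ i') ≫ q) = 𝟙 _ := by
      have e3 : j ≫ (r' ≫ i') ≫ q = 𝟙 P - (j ≫ r ≫ i) ≫ q := by
        have e4 : r' ≫ i' = 𝟙 M - r ≫ i := by rw [← h5]; abel
        rw [e4, Preadditive.sub_comp, Preadditive.comp_sub, Category.id_comp, hjq]
        simp
      rw [e3, Functor.map_sub, Functor.map_comp _ (j ≫ r ≫ i) q, e1]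
      simp
    obtain ⟨u', hu'⟩ := hPnil.isUnit _ e2
    refine ⟨m, ?_⟩
    rw [neg_neg]
    refine kills_retract (j ≫ r') (i' ≫ q ≫ u') ?_ hm
    rw [← hu']
    simp

include R in
/-- Nilpotence descends along tensor products. -/
lemma homNil_of_tensor (hU : UnitQ C) {M N : C} (hN : ¬ IsZero (R.H.obj N)) (hCN : R.CPlus N)
    (h : HomNil R (M ⊗ N)) : HomNil R M := by
  have hc := R_charZero R
  intro f hf
  obtain ⟨g, hg⟩ := (cplus_iff R N).1 hCN
  have hf' : R.H.map ((f : M ⟶ M) ▷ N) = 0 := by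
    rw [map_whiskerRight_eq, hf, bx_zero_left]
  obtain ⟨n, hn⟩ := h (en ((f : M ⟶ M) ▷ N)) hf'
  refine ⟨n, ?_⟩
  have h1 : ∀ n : ℕ, (en ((f : M ⟶ M) ▷ N)) ^ n = en (((f ^ n : End M) : M ⟶ M) ▷ N) := by
    intro n
    induction n with
    | zero =>
      rw [pow_zero, pow_zero]
      exact (id_whiskerRight M N).symm
    | succ n ih =>
      rw [pow_succ, ih, pow_succ, End.mul_def, End.mul_def, en, en, en, ← comp_whiskerRight]
  rw [h1] at hn
  have h2 : ((f ^ n : End M) : M ⟶ M) ⊗ₘ g = 0 := by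
    rw [MonoidalCategory.tensorHom_def]
    have h3 : ((f ^ n : End M) : M ⟶ M) ▷ N = 0 := hn
    rw [h3, zero_comp]
  have h3 := ptr_tensor ((f ^ n : End M) : M ⟶ M) g (trq hU N (g : End N)) (trq_spec hU _)
  rw [h2] at h3
  have h4 : ptr (0 : M ⊗ N ⟶ M ⊗ N) = 0 := (ptrL M N).map_zero
  rw [h4] at h3
  have h5 : trq hU N (g : End N) ≠ 0 := by
    have h6 := real_tr R hU g
    have h0 := R.finite N
    rw [hg, R.par_sq, ModuleCat.hom_id, LinearMap.trace_id] at h6
    intro h7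
    rw [h7] at h6
    have h8 : (Module.finrank K (R.H.obj N) : K) = 0 := by
      rw [← h6]
      simp
    exact finrank_ne_zero R hN (by exact_mod_cast h8)
  have h6 : trq hU N (g : End N) • ((f ^ n : End M) : M ⟶ M) = 0 := h3.symm
  exact (smul_eq_zero.1 h6).resolve_left h5

include R in
/-- The decomposition into an even and an odd part. -/
lemma exists_parts {M : C} (hC : R.CPlus M) (hM : HomNil R M) : ∃ (E O : C) (i : E ⟶ M)
    (r : M ⟶ E) (i' : O ⟶ M) (r' : M ⟶ O), i ≫ r = 𝟙 E ∧ i' ≫ r' = 𝟙 O ∧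
    r ≫ i + r' ≫ i' = 𝟙 M ∧ R.par E = (1 : K) • 𝟙 _ ∧ R.par O = (-1 : K) • 𝟙 _ := by
  have hc := R_charZero R
  have h2 : (2 : K) ≠ 0 := two_ne_zero
  obtain ⟨f, hf⟩ := hC
  have hff : R.H.map f ≫ R.H.map f = R.H.map f := by
    have e1 : (2 : K) • ((2 : K) • (R.H.map f ≫ R.H.map f)) = (2 : K) • ((2 : K) • R.H.map f) := by
      have e2 : (2 : K) • ((2 : K) • (R.H.map f ≫ R.H.map f)) =
          ((2 : K) • R.H.map f) ≫ ((2 : K) • R.H.map f) := by
        rw [Linear.smul_comp, Linear.comp_smul]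
      rw [e2, hf, Preadditive.add_comp, Preadditive.comp_add, Preadditive.comp_add, R.par_sq]
      simp only [Category.id_comp, Category.comp_id]
      module
    have e3 := congrArg (fun z => (2 : K)⁻¹ • ((2 : K)⁻¹ • z)) e1
    have e4 : (2 : K)⁻¹ * ((2 : K)⁻¹ * (2 * 2)) = 1 := by
      field_simp
    simpa only [smul_smul, e4, one_smul] using e3
  have hnil : IsNilpotent (en f * en f - en f) := hM _ (by
    change R.H.map (f ≫ f - f) = 0
    rw [Functor.map_sub, Functor.map_comp, hff, sub_self])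
  obtain ⟨e, he1, hHe⟩ : ∃ e : M ⟶ M, e ≫ e = e ∧ R.H.map e = R.H.map f := by
    obtain ⟨e, c, he, hec⟩ := exists_lift hnil
    refine ⟨e, he, ?_⟩
    have e2 : e = en f + (en f * en f - en f) * c := by rw [← hec]; abel
    have e1 : (e : M ⟶ M) = f + (c : M ⟶ M) ≫ (f ≫ f - f) := e2
    rw [e1, Functor.map_add, Functor.map_comp, Functor.map_sub, Functor.map_comp, hff, sub_self,
      comp_zero, add_zero]
  have he' : (𝟙 M - e) ≫ (𝟙 M - e) = 𝟙 M - e := by
    rw [Preadditive.sub_comp, Preadditive.comp_sub, Preadditive.comp_sub, he1]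
    simp
  obtain ⟨E, i, r, h1, h2'⟩ := IsIdempotentComplete.idempotents_split M e he1
  obtain ⟨O, i', r', h3, h4⟩ := IsIdempotentComplete.idempotents_split M (𝟙 M - e) he'
  have hpar : R.par M = (2 : K) • R.H.map (e : M ⟶ M) - 𝟙 _ := by
    rw [hHe, hf]
    simp
  refine ⟨E, O, i, r, i', r', h1, h3, by rw [h2', h4]; abel, ?_, ?_⟩
  · have e1 : R.H.map i ≫ R.par M ≫ R.H.map r = R.par E := by
      rw [← Category.assoc, R.par_natural, Category.assoc, ← Functor.map_comp, h1]
      simp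
    rw [← e1, hpar, ← h2', Preadditive.sub_comp, Preadditive.comp_sub, Linear.smul_comp,
      Linear.comp_smul, Category.id_comp, ← Functor.map_comp, ← Functor.map_comp,
      ← Functor.map_comp]
    have e2 : i ≫ (r ≫ i) ≫ r = 𝟙 E := by
      rw [Category.assoc, reassoc_of% h1, h1]
    rw [e2, h1, CategoryTheory.Functor.map_id]
    module
  · have e1 : R.H.map i' ≫ R.par M ≫ R.H.map r' = R.par O := by
      rw [← Category.assoc, R.par_natural, Category.assoc, ← Functor.map_comp, h3]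
      simp
    have e3 : (e : M ⟶ M) = 𝟙 M - r' ≫ i' := by rw [h4]; abel
    rw [← e1, hpar, Preadditive.sub_comp, Preadditive.comp_sub, Linear.smul_comp,
      Linear.comp_smul, Category.id_comp, ← Functor.map_comp, ← Functor.map_comp,
      ← Functor.map_comp]
    have e2 : i' ≫ (e : M ⟶ M) ≫ r' = 0 := by
      rw [e3, Preadditive.sub_comp, Preadditive.comp_sub, Category.id_comp, h3, Category.assoc,
        reassoc_of% h3, h3, sub_self]
    rw [e2, h3, CategoryTheory.Functor.map_id, Functor.map_zero]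
    module

include R in
/-- Direct summands of Kimura finite objects are Kimura finite (a theorem of Kimura). -/
theorem IsKimuraFinite.retract (hU : UnitQ C) {M P : C} (h : IsKimuraFinite M) (j : P ⟶ M)
    (q : M ⟶ P) (hjq : j ≫ q = 𝟙 P) : IsKimuraFinite P := by
  have hC : R.CPlus P := cplus_retract R j q hjq (h.cplus R)
  have hnil : HomNil R P := (h.homNil R hU).retract j q hjq
  obtain ⟨E, O, i, r, i', r', h1, h2, h3, hE, hO⟩ := exists_parts R hC hnil
  obtain ⟨n, hn⟩ := h.summand R hU (i ≫ j) (q ≫ r) (by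
    rw [Category.assoc, reassoc_of% hjq, h1]) (Or.inl rfl) (by rw [hE]; norm_num)
  obtain ⟨m, hm⟩ := h.summand R hU (i' ≫ j) (q ≫ r') (by
    rw [Category.assoc, reassoc_of% hjq, h2]) (Or.inr rfl) (by rw [hO]; norm_num)
  rw [neg_neg] at hm
  exact (isKimuraFinite_iff P).2 ⟨E, O, i, r, i', r', h1, h2, h3, ⟨n, hn⟩, m, hm⟩

/-- The parity of a tensor product. -/
lemma par_tensor_eq {X Y : C} {a b : K} (hX : R.par X = a • 𝟙 _) (hY : R.par Y = b • 𝟙 _) :
    R.par (X ⊗ Y) = (a * b) • 𝟙 _ := by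
  rw [← bx_par, hX, hY, bx_smul_left, bx_smul_right, smul_smul, bx_one]

include R in
/-- The descent for the first factor. -/
theorem isKimuraFinite_left (hU : UnitQ C) {M N : C} (hM : ¬ IsZero (R.H.obj M))
    (hN : ¬ IsZero (R.H.obj N)) (h : IsKimuraFinite (M ⊗ N)) : IsKimuraFinite M := by
  have hc := R_charZero R
  have hCMN := h.cplus R
  have hCM : R.CPlus M := cplus_of_tensor R hN hCMN
  have hCN : R.CPlus N := cplus_of_tensor R hM (cplus_braid R hCMN)
  have hnil := h.homNil R hU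
  have hnilM := homNil_of_tensor R hU hN hCN hnil
  have hnil' : HomNil R (N ⊗ M) := hnil.retract (β_ N M).hom (β_ N M).inv (by simp)
  have hnilN := homNil_of_tensor R hU hM hCM hnil'
  obtain ⟨E, O, i, r, i', r', h1, h2, h3, hE, hO⟩ := exists_parts R hCM hnilM
  obtain ⟨F, G, j, s, j', s', k1, k2, k3, hF, hG⟩ := exists_parts R hCN hnilN
  -- choose a part of `N` with non zero realisation
  obtain ⟨T, a, b, t, hab, ht, hT, hT0⟩ : ∃ (T : C) (a : T ⟶ N) (b : N ⟶ T) (t : ℚ),
      a ≫ b = 𝟙 T ∧ (t = 1 ∨ t = -1) ∧ R.par T = (t : K) • 𝟙 _ ∧ ¬ IsZero (R.H.obj T) := by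
    by_cases hz : IsZero (R.H.obj F)
    · refine ⟨G, j', s', -1, k2, Or.inr rfl, by rw [hG]; norm_num, ?_⟩
      intro hz'
      apply hN
      rw [IsZero.iff_id_eq_zero, ← CategoryTheory.Functor.map_id, ← k3, Functor.map_add,
        Functor.map_comp, Functor.map_comp, hz.eq_of_tgt (R.H.map s) 0,
        hz'.eq_of_tgt (R.H.map s') 0]
      simp
    · exact ⟨F, j, s, 1, k1, Or.inl rfl, by rw [hF]; norm_num, hz⟩
  have hts : t * t = 1 := by rcases ht with rfl | rfl <;> norm_num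
  have hFne := F_one_ne R hU t hts hT hT0
  have key : ∀ (P : C) (x : P ⟶ M) (y : M ⟶ P) (d : ℚ), x ≫ y = 𝟙 P → (d = 1 ∨ d = -1) →
      R.par P = (d : K) • 𝟙 _ → ∃ n, asym (-d) P n = 0 := by
    intro P x y d hxy hd hP
    have hd2 : d * d = 1 := by rcases hd with rfl | rfl <;> norm_num
    have h5 : (x ⊗ₘ a) ≫ (y ⊗ₘ b) = 𝟙 (P ⊗ T) := by
      rw [tensorHom_comp_tensorHom, hxy, hab, id_tensorHom_id]
    have h6 : R.par (P ⊗ T) = ((d * t : ℚ) : K) • 𝟙 _ := by
      rw [par_tensor_eq R hP hT]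
      push_cast
      rfl
    have h7 : d * t = 1 ∨ d * t = -1 := by
      rcases hd with rfl | rfl <;> rcases ht with rfl | rfl <;> norm_num
    obtain ⟨n, hn⟩ := h.summand R hU (x ⊗ₘ a) (y ⊗ₘ b) h5 h7 h6
    refine ⟨n, kill_descent hU (η := -d) (θ := t) (by linear_combination hd2) hts P T n ?_
      (hFne n)⟩
    rw [neg_mul]
    exact hn
  obtain ⟨n, hn⟩ := key E i r 1 h1 (Or.inl rfl) (by rw [hE]; norm_num)
  obtain ⟨m, hm⟩ := key O i' r' (-1) h2 (Or.inr rfl) (by rw [hO]; norm_num)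
  rw [neg_neg] at hm
  exact (isKimuraFinite_iff M).2 ⟨E, O, i, r, i', r', h1, h2, h3, ⟨n, hn⟩, m, hm⟩

end

end Pool.Agent.R905
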