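import Pool.Agent.Y112.SC.Mon

/-!
# Kimura finite-dimensional objects of a tensor category: definitions
-/

set_option autoImplicit false

open CategoryTheory Limits MonoidalCategory
open Pool.Agent.Y112.KD

namespace Pool.Agent.R905

universe v u

section

variable {C : Type u} [Category.{v} C] [MonoidalCategory C] [SymmetricCategory C]
  [Preadditive C] [Linear ℚ C]

/-- The direct summand `(M, e)` of `M`, cut out by the idempotent `e`, has vanishing `n`-th exterior
power (for `η = -1`) or vanishing `n`-th symmetric power (for `η = 1`): each morphism `h` on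
`M ⊗ ⋯ ⊗ M` (`n` factors) with `h ∘ s = η h` for all exchanges `s` of two neighbouring factors
satisfies `h ∘ (e ⊗ ⋯ ⊗ e) = 0`. -/
def PowerVanishes (η : ℚ) {M : C} (e : M ⟶ M) (n : ℕ) : Prop :=
  ∀ (Z : C) (h : tp M n ⟶ Z), (∀ s, IsSwap M n s → s ≫ h = η • h) → tpm e n ≫ h = 0

/-- The object `M` is finite-dimensional in the sense of Kimura: it is the direct sum of a summand
`(M, e)` with a vanishing exterior power and of a summand `(M, 1 - e)` with a vanishing symmetric
power. -/
def IsKimuraFinite (M : C) : Prop :=
  ∃ e : M ⟶ M, e ≫ e = e ∧ (∃ n, PowerVanishes (-1) e n) ∧ ∃ n, PowerVanishes 1 (𝟙 M - e) n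

end

end Pool.Agent.R905
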