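import Pool.Agent.R905.Defs

/-!
# Kimura finite-dimensional objects and their realisations
-/

set_option autoImplicit false
set_option linter.unusedSectionVars false
set_option linter.unusedSimpArgs false
set_option backward.isDefEq.respectTransparency false
set_option backward.defeqAttrib.useBackward true

open CategoryTheory Limits MonoidalCategory
open Pool.Agent.Y112.SR Pool.Agent.Y112.KD Pool.Agent.Y112.SC
open Pool.Agent.TH829.Kim (InRad Killed)

namespace Pool.Agent.R905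

universe v u w

open Functor.LaxMonoidal Functor.OplaxMonoidal

section

variable {C : Type u} [Category.{v} C] [MonoidalCategory C] [SymmetricCategory C]
  [Preadditive C] [Linear ℚ C] [MonoidalPreadditive C] [MonoidalLinear ℚ C]

/-- The vanishing of powers of a summand in terms of an object splitting the idempotent. -/
lemma powerVanishes_iff {η : ℚ} (hη : η * η = 1) {M E : C} (i : E ⟶ M) (r : M ⟶ E)
    (hir : i ≫ r = 𝟙 E) {e : M ⟶ M} (he : r ≫ i = e) (n : ℕ) :
    PowerVanishes η e n ↔ asym η E n = 0 := by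
  have h1 : tpm i n ≫ tpm r n = 𝟙 _ := by rw [tpm_comp, hir, tpm_id]
  have h2 : tpm r n ≫ tpm i n = tpm e n := by rw [tpm_comp, he]
  have h3 : tpm i n ≫ tpm e n = tpm i n := by
    rw [tpm_comp, ← he, ← Category.assoc, hir, Category.id_comp]
  constructor
  · intro h
    have h4 : tpm e n ≫ asym η M n = 0 := h _ _ (fun s hs => (swap_asym hη M hs).1)
    rw [← Category.comp_id (asym η E n), ← h1, ← Category.assoc, ← asym_nat, ← h3,
      Category.assoc, Category.assoc, reassoc_of% h4]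
    simp
  · intro h Z g hg
    have h4 := asym_comp hη g hg
    rw [← h4, ← h2, Category.assoc, ← Category.assoc (tpm i n), asym_nat, h]
    simp

lemma asym_mono {η : ℚ} (hη : η * η = 1) (E : C) {n : ℕ} (h : asym η E n = 0) :
    asym η E (n + 1) = 0 := by
  rw [← (absorb hη E n).1, h]
  simp

end

section

variable {C : Type u} [Category.{v} C] [Preadditive C] [Linear ℚ C] [MonoidalCategory C]
  [MonoidalPreadditive C] [MonoidalLinear ℚ C] [SymmetricCategory C]
  {K : Type w} [Field K] (R : SuperRealisation C K)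

lemma map_assoc_el {X Y Z : C} (x : R.H.obj X) (y : R.H.obj Y) (z : R.H.obj Z) :
    (R.H.map (α_ X Y Z).hom).hom ((μ R.H (X ⊗ Y) Z).hom
      (((μ R.H X Y).hom (x ⊗ₜ[K] y) : R.H.obj (X ⊗ Y)) ⊗ₜ[K] z)) =
    (μ R.H X (Y ⊗ Z)).hom (x ⊗ₜ[K] ((μ R.H Y Z).hom (y ⊗ₜ[K] z) : R.H.obj (Y ⊗ Z))) := by
  have h1 := Functor.LaxMonoidal.associativity (F := R.H) X Y Z
  exact LinearMap.congr_fun (congrArg ModuleCat.Hom.hom h1) ((x ⊗ₜ[K] y) ⊗ₜ[K] z)

lemma map_assoc_inv_el {X Y Z : C} (x : R.H.obj X) (y : R.H.obj Y) (z : R.H.obj Z) :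
    (R.H.map (α_ X Y Z).inv).hom ((μ R.H X (Y ⊗ Z)).hom
      (x ⊗ₜ[K] ((μ R.H Y Z).hom (y ⊗ₜ[K] z) : R.H.obj (Y ⊗ Z)))) =
    (μ R.H (X ⊗ Y) Z).hom
      (((μ R.H X Y).hom (x ⊗ₜ[K] y) : R.H.obj (X ⊗ Y)) ⊗ₜ[K] z) := by
  rw [← map_assoc_el, ← LinearMap.comp_apply, ← ModuleCat.hom_comp, ← Functor.map_comp]
  simp

lemma map_whiskerLeft_el {X Y Z : C} (f : Y ⟶ Z) (x : R.H.obj X) (y : R.H.obj Y) :
    (R.H.map (X ◁ f)).hom ((μ R.H X Y).hom (x ⊗ₜ[K] y)) =
    (μ R.H X Z).hom (x ⊗ₜ[K] (R.H.map f).hom y) := by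
  have h1 := μ_natural_right (F := R.H) X f
  exact (LinearMap.congr_fun (congrArg ModuleCat.Hom.hom h1) (x ⊗ₜ[K] y)).symm

lemma map_whiskerRight_el {X Y Z : C} (f : X ⟶ Z) (x : R.H.obj X) (y : R.H.obj Y) :
    (R.H.map (f ▷ Y)).hom ((μ R.H X Y).hom (x ⊗ₜ[K] y)) =
    (μ R.H Z Y).hom ((R.H.map f).hom x ⊗ₜ[K] y) := by
  have h1 := μ_natural_left (F := R.H) f Y
  exact (LinearMap.congr_fun (congrArg ModuleCat.Hom.hom h1) (x ⊗ₜ[K] y)).symm

/-- The exchange of a vector of pure parity with itself. -/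
lemma map_braid_el {X : C} {d : K} (hd : d * d = 1) (v : R.H.obj X)
    (hv : (R.par X).hom v = d • v) :
    (R.H.map (β_ X X).hom).hom ((μ R.H X X).hom (v ⊗ₜ[K] v)) =
      d • (μ R.H X X).hom (v ⊗ₜ[K] v) := by
  have hc := R_charZero R
  have h1 := LinearMap.congr_fun (congrArg ModuleCat.Hom.hom (R.symm X X)) (v ⊗ₜ[K] v)
  have h2 : ((𝟙 _ + R.par X ▷ R.H.obj X + R.H.obj X ◁ R.par X - (R.par X ⊗ₘ R.par X)) ≫
      (β_ (R.H.obj X) (R.H.obj X)).hom ≫ μ R.H X X).hom (v ⊗ₜ[K] v) =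
      (μ R.H X X).hom (v ⊗ₜ[K] v) + (μ R.H X X).hom (v ⊗ₜ[K] ((R.par X).hom v)) +
        (μ R.H X X).hom (((R.par X).hom v) ⊗ₜ[K] v) -
        (μ R.H X X).hom (((R.par X).hom v) ⊗ₜ[K] ((R.par X).hom v)) := by
    rw [ModuleCat.hom_comp, ModuleCat.hom_comp, LinearMap.comp_apply, LinearMap.comp_apply,
      ModuleCat.hom_sub, ModuleCat.hom_add, ModuleCat.hom_add, LinearMap.sub_apply,
      LinearMap.add_apply, LinearMap.add_apply, map_sub, map_add, map_add, map_sub, map_add,
      map_add]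
    rfl
  have h3 : (2 : K) • (R.H.map (β_ X X).hom).hom ((μ R.H X X).hom (v ⊗ₜ[K] v)) =
      (2 : K) • (d • (μ R.H X X).hom (v ⊗ₜ[K] v)) := by
    refine Eq.trans h1 (h2.trans ?_)
    rw [hv, TensorProduct.tmul_smul, TensorProduct.tmul_smul, ← TensorProduct.smul_tmul',
      smul_smul, hd, one_smul, map_smul]
    module
  have h4 := congrArg (fun z => (2 : K)⁻¹ • z) h3
  simp only [smul_smul, ← mul_assoc, inv_mul_cancel₀ (two_ne_zero : (2 : K) ≠ 0), one_smul,
    one_mul] at h4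
  exact h4

/-- The tensor power of a vector. -/
noncomputable def vp {X : C} (v : R.H.obj X) : ∀ n : ℕ, R.H.obj (tp X n)
  | 0 => (ε R.H).hom (1 : K)
  | n + 1 => (μ R.H (tp X n) X).hom (vp v n ⊗ₜ[K] v)

lemma vp_succ {X : C} (v : R.H.obj X) (n : ℕ) :
    vp R v (n + 1) = (μ R.H (tp X n) X).hom (vp R v n ⊗ₜ[K] v) := rfl

lemma map_sw_vp {X : C} {d : K} (hd : d * d = 1) (v : R.H.obj X)
    (hv : (R.par X).hom v = d • v) (n : ℕ) :
    (R.H.map (sw (tp X n) X)).hom (vp R v (n + 2)) = d • vp R v (n + 2) := by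
  rw [sw, Functor.map_comp, Functor.map_comp, ModuleCat.hom_comp, ModuleCat.hom_comp,
    LinearMap.comp_apply, LinearMap.comp_apply, vp_succ, vp_succ, map_assoc_el,
    map_whiskerLeft_el, map_braid_el R hd v hv, TensorProduct.tmul_smul, map_smul, map_smul,
    map_assoc_inv_el]

lemma map_asym_vp [CharZero K] {X : C} {η : ℚ} (hη : η * η = 1) (v : R.H.obj X)
    (hv : (R.par X).hom v = (η : K) • v) (n : ℕ) :
    (R.H.map (asym η X n)).hom (vp R v n) = vp R v n := by
  have hη' : (η : K) * η = 1 := by exact_mod_cast hη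
  induction n with
  | zero => simp [asym_zero]
  | succ n ih =>
    rcases n with - | n
    · simp [asym_one]
    · have h1 : (R.H.map (asym η X (n + 1) ▷ X)).hom (vp R v (n + 2)) = vp R v (n + 2) := by
        rw [vp_succ, map_whiskerRight_el, ih]
      rw [asym_succ, R_smul, Functor.map_add, R_smul, Functor.map_comp, Functor.map_comp]
      simp only [ModuleCat.hom_smul, ModuleCat.hom_add, ModuleCat.hom_comp, LinearMap.smul_apply,
        LinearMap.add_apply, LinearMap.comp_apply]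
      rw [h1, map_sw_vp R hη' v hv, map_smul, h1, smul_smul]
      push_cast
      have h2 : (η : K) * ((n : K) + 1) * η = (n : K) + 1 := by
        linear_combination ((n : K) + 1) * hη'
      rw [h2]
      have h3 : vp R v (n + 2) + ((n : K) + 1) • vp R v (n + 2) =
          ((n : K) + 1 + 1) • vp R v (n + 2) := by module
      have h4 : (n : K) + 1 + 1 ≠ 0 := by exact_mod_cast Nat.succ_ne_zero (n + 1)
      rw [h3, smul_smul, inv_mul_cancel₀ h4, one_smul]

lemma vp_ne_zero {X : C} (v : R.H.obj X) (hv : v ≠ 0) (n : ℕ) : vp R v n ≠ 0 := by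
  induction n with
  | zero =>
    intro h
    have h1 : (𝟙 (𝟙_ (ModuleCat.{w} K)) : 𝟙_ (ModuleCat.{w} K) ⟶ _).hom (1 : K) =
        (η R.H).hom ((ε R.H).hom (1 : K)) := by
      rw [← Functor.Monoidal.ε_η R.H]
      rfl
    have h2 : (ε R.H).hom (1 : K) = 0 := h
    rw [h2, map_zero] at h1
    exact one_ne_zero (α := K) h1
  | succ n ih =>
    intro h
    rw [vp_succ] at h
    have h1 : vp R v n ⊗ₜ[K] v = 0 := by
      have h2 : (δ R.H (tp X n) X).hom ((μ R.H (tp X n) X).hom (vp R v n ⊗ₜ[K] v)) =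
          vp R v n ⊗ₜ[K] v := by
        rw [← LinearMap.comp_apply, ← ModuleCat.hom_comp, Functor.Monoidal.μ_δ]
        rfl
      rw [← h2, h, map_zero]
    have h2 : ∃ f : Module.Dual K (R.H.obj X), f v ≠ 0 := by
      by_contra hcon
      push Not at hcon
      exact hv ((Module.forall_dual_apply_eq_zero_iff K v).1 hcon)
    obtain ⟨f, hf⟩ := h2
    have h3 := congrArg (fun z => TensorProduct.rid K _ (LinearMap.lTensor _ f z)) h1
    simp only [LinearMap.lTensor_tmul, TensorProduct.rid_tmul, map_zero] at h3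
    exact ih ((smul_eq_zero.1 h3).resolve_left hf)

/-- If a power vanishes then the realisation has only one parity. -/
lemma par_eq_of_asym [CharZero K] {X : C} {η : ℚ} (hη : η * η = 1) {n : ℕ}
    (h : asym η X n = 0) : R.par X = (-(η : K)) • 𝟙 _ := by
  have hη' : (η : K) * η = 1 := by exact_mod_cast hη
  have key : ∀ v : R.H.obj X, (R.par X).hom v = (η : K) • v → v = 0 := by
    intro v hv
    by_contra hne
    apply vp_ne_zero R v hne n
    rw [← map_asym_vp R hη v hv n, h, Functor.map_zero]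
    rfl
  apply ModuleCat.hom_ext
  ext v
  have h1 : (R.par X).hom ((R.par X).hom v) = v := by
    rw [← LinearMap.comp_apply, ← ModuleCat.hom_comp, R.par_sq]
    rfl
  have h2 : (R.par X).hom v + (η : K) • v = 0 := by
    apply key
    rw [map_add, map_smul, h1, smul_add, smul_smul, hη', one_smul, add_comm]
  have h3 : ((-(η : K)) • 𝟙 (R.H.obj X) : R.H.obj X ⟶ R.H.obj X).hom v = -(η : K) • v := rfl
  rw [h3, neg_smul]
  exact eq_neg_of_add_eq_zero_left h2

end

end Pool.Agent.R905
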